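import Mathlib
import Pool.Agent.Q93.UM.Defs
import Pool.Agent.Q93.UM.NoPart
import Pool.Agent.Q93.UM.Expand
import Pool.Agent.Q93.UM.Ex2

/-!
# Longbranched unimodal maps with minimal homeomorphic dynamics on `ω(c)`

The definitions (`Unimodal`, `omegaSet`, `nu`, `IsCut`, `LongBranched`, `InfRecurrent`,
`MinimalHomeo`) are in `Pool.Agent.Q93.UM.Defs` and follow the problem file.
-/

namespace Pool.Agent.Results.MP_23b248_an.LongBranchedMinimal

open Set Q93.UM

/-- (1) If `f` is a longbranched unimodal map with infinitely recurrent turning point `c` and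
`f : ω(c) → ω(c)` is a minimal homeomorphism, then there is an interval `[x,y]` with end points
`x < y` in `ω(c)` on which all iterates of `f` are injective (a homterval). Thus there is no such
map among the unimodal maps without homtervals.
(2) In particular there is no such map among the maps which expand distances by a factor `l > 1`
on `[0,c]` and on `[c,1]`, for instance no tent map.
(3) Among all continuous unimodal maps there is such a map. -/
theorem result :
    (∀ (f : ℝ → ℝ) (c : ℝ), Unimodal f c → InfRecurrent f c → LongBranched f c →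
      MinimalHomeo f (omegaSet f c) →
      ∃ x ∈ omegaSet f c, ∃ y ∈ omegaSet f c, x < y ∧ ∀ n : ℕ, InjOn f^[n] (Icc x y)) ∧
    (∀ (f : ℝ → ℝ) (c l : ℝ), Unimodal f c → 1 < l →
      (∀ x y, (x ∈ Icc 0 c ∧ y ∈ Icc 0 c) ∨ (x ∈ Icc c 1 ∧ y ∈ Icc c 1) →
        l * |x - y| ≤ |f x - f y|) →
      InfRecurrent f c → LongBranched f c → ¬ MinimalHomeo f (omegaSet f c)) ∧
    (∃ (f : ℝ → ℝ) (c : ℝ), Unimodal f c ∧ InfRecurrent f c ∧ LongBranched f c ∧
      MinimalHomeo f (omegaSet f c)) := by
  refine ⟨fun f c h hrec hlong hmin => ?_, fun f c l h hl hexp hrec hlong => ?_, exists_example⟩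
  · by_contra hcon
    push Not at hcon
    exact no_part h hrec hlong (fun x hx y hy hxy => hcon x hx y hy hxy) hmin
  · exact no_part h hrec hlong (no_homterval_of_expanding h hl hexp)

end Pool.Agent.Results.MP_23b248_an.LongBranchedMinimal
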